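import Pool.Agent.MP_13e7a1_an.H82.Spec

set_option autoImplicit false

/-! Linear algebra of invariant and anti-invariant 2-forms. -/

open scoped Matrix
open Set

noncomputable section

namespace Pool.Agent.MP_13e7a1_an.H59

open H82

theorem trace_zero {J : Mat} (h : J * J = -1) : J.trace = 0 := by
  have hG : (1 + Jᵀ * J).PosDef := by
    have := Matrix.posSemidef_conjTranspose_mul_self J
    rw [Matrix.conjTranspose_eq_transpose_of_trivial] at this
    exact Matrix.PosDef.one.add_posSemidef this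
  have hu : IsUnit (1 + Jᵀ * J).det := (Matrix.isUnit_iff_isUnit_det _).1 hG.isUnit
  have e1 : (1 + Jᵀ * J) * J = J - Jᵀ := by
    rw [Matrix.add_mul, Matrix.mul_assoc, h]
    simp [sub_eq_add_neg]
  have e2 : J = (1 + Jᵀ * J)⁻¹ * (J - Jᵀ) := by
    rw [← e1, ← Matrix.mul_assoc, Matrix.nonsing_inv_mul _ hu, Matrix.one_mul]
  have e3 : ((1 + Jᵀ * J)⁻¹)ᵀ = (1 + Jᵀ * J)⁻¹ := by
    rw [Matrix.transpose_nonsing_inv]
    simp
  have e4 : ((1 + Jᵀ * J)⁻¹ * (J - Jᵀ)).trace = -((1 + Jᵀ * J)⁻¹ * (J - Jᵀ)).trace := by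
    nth_rewrite 1 [← Matrix.trace_transpose]
    rw [Matrix.transpose_mul, e3, Matrix.trace_mul_comm, ← Matrix.trace_neg, ← Matrix.mul_neg]
    simp
  rw [← e2] at e4
  linarith

theorem anti_apply {a : Mat} (h : aᵀ = -a) (i j : Fin 4) : a j i = -a i j :=
  congrFun (congrFun h i) j

theorem pf_der (J : Mat) {a b : Mat} (ha : aᵀ = -a) (hb : bᵀ = -b) :
    pf (Jᵀ * a + a * J) b + pf a (Jᵀ * b + b * J) = J.trace * pf a b := by
  have a0 : ∀ i, a i i = 0 := fun i => by have := anti_apply ha i i; linarith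
  have b0 : ∀ i, b i i = 0 := fun i => by have := anti_apply hb i i; linarith
  simp only [pf, Matrix.add_apply, Matrix.mul_apply, Matrix.transpose_apply, Fin.sum_univ_four,
    Matrix.trace, Matrix.diag_apply, a0, b0, anti_apply ha 0 1, anti_apply ha 0 2,
    anti_apply ha 0 3, anti_apply ha 1 2, anti_apply ha 1 3, anti_apply ha 2 3,
    anti_apply hb 0 1, anti_apply hb 0 2, anti_apply hb 0 3, anti_apply hb 1 2,
    anti_apply hb 1 3, anti_apply hb 2 3]
  ring

theorem tt {J : Mat} (h : J * J = -1) : Jᵀ * Jᵀ = -1 := by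
  rw [← Matrix.transpose_mul, h]
  simp

theorem anti_comm {J γ : Mat} (h : J * J = -1) (hγ : IsAnti J γ) : γ * J = Jᵀ * γ := by
  have := congrArg (· * J) hγ.2
  simp only [Matrix.mul_assoc, h, Matrix.mul_neg, Matrix.mul_one, Matrix.neg_mul, neg_inj] at this
  exact this.symm

theorem key {J β γ : Mat} (h : J * J = -1) (hβ : βᵀ = -β) (hγ : IsAnti J γ) :
    pf (Jᵀ * β + β * J) (Jᵀ * γ) = 2 * pf β γ := by
  have h1 : (Jᵀ * γ)ᵀ = -(Jᵀ * γ) := by
    rw [Matrix.transpose_mul, hγ.1, Matrix.transpose_transpose, Matrix.neg_mul, anti_comm h hγ]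
  have h2 := pf_der J hβ h1
  rw [trace_zero h, zero_mul, ← Matrix.mul_assoc, tt h, hγ.2] at h2
  have : pf β (-1 * γ + -γ) = -2 * pf β γ := by
    simp only [pf, Matrix.neg_mul, Matrix.one_mul, Matrix.add_apply, Matrix.neg_apply]
    ring
  linarith

theorem om_pos {J : Mat} (h : J * J = -1) : IsPos J (om J) := by
  refine ⟨⟨by simp [om], ?_⟩, fun Z => ?_⟩
  · rw [om, Matrix.mul_sub, Matrix.sub_mul, tt h, Matrix.mul_assoc, h]
    simp [sub_eq_add_neg, add_comm]
  · rw [om, Matrix.sub_mulVec, Matrix.mulVec_mulVec Z J J, h, dotProduct_sub,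
      Matrix.dotProduct_mulVec, Matrix.vecMul_transpose, Matrix.neg_mulVec, Matrix.one_mulVec,
      dotProduct_neg, sub_neg_eq_add]
    exact add_nonneg (Finset.sum_nonneg fun i _ => mul_self_nonneg _)
      (Finset.sum_nonneg fun i _ => mul_self_nonneg _)

theorem pf_smul (t : ℝ) (β γ : Mat) : pf (t • β) γ = t * pf β γ := by
  simp only [pf, Matrix.smul_apply, smul_eq_mul]
  ring

theorem pos_smul {J β : Mat} (h : IsPos J β) {t : ℝ} (ht : 0 ≤ t) : IsPos J (t • β) := by
  refine ⟨⟨by rw [Matrix.transpose_smul, h.1.1, smul_neg], ?_⟩, fun Z => ?_⟩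
  · rw [Matrix.mul_smul, Matrix.smul_mul, h.1.2]
  · rw [Matrix.smul_mulVec, dotProduct_smul]
    exact mul_nonneg ht (h.2 Z)

theorem box (K : ℝ) : IsCompact {A : Mat | ∀ i j, |A i j| ≤ K} := by
  have : IsCompact (Set.pi univ fun _ : Fin 4 => Set.pi univ fun _ : Fin 4 => Icc (-K) K) :=
    isCompact_univ_pi fun _ => isCompact_univ_pi fun _ => isCompact_Icc
  have e : {A : Mat | ∀ i j, |A i j| ≤ K} =
      Set.pi univ fun _ : Fin 4 => Set.pi univ fun _ : Fin 4 => Icc (-K) K := by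
    ext A
    simp only [abs_le, mem_ofPred_eq]
    exact ⟨fun h i _ j _ => h i j, fun h i j => h i trivial j trivial⟩
  rw [e]
  exact this

theorem cont_pf {X : Type} [TopologicalSpace X] {f g : X → Mat} (hf : Continuous f)
    (hg : Continuous g) : Continuous fun x => pf (f x) (g x) := by
  have a : ∀ i j, Continuous fun x => f x i j := fun i j => hf.matrix_elem i j
  have b : ∀ i j, Continuous fun x => g x i j := fun i j => hg.matrix_elem i j
  unfold pf
  exact ((((((a _ _).mul (b _ _)).sub ((a _ _).mul (b _ _))).add ((a _ _).mul (b _ _))).add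
    ((a _ _).mul (b _ _))).sub ((a _ _).mul (b _ _))).add ((a _ _).mul (b _ _))

theorem linB (H : SLinA) : SLinB where
  orth J h β γ hβ hγ := by
    have h1 : Jᵀ * β + β * J = 0 := by
      have := congrArg (· * J) hβ.2
      simp only [Matrix.mul_assoc, h, Matrix.mul_neg, Matrix.mul_one] at this
      rw [← this, add_neg_cancel]
    have := key h hβ.1 hγ
    rw [h1] at this
    simp only [pf, Matrix.zero_apply, zero_mul] at this ⊢
    linarith
  rot J h β γ hβ hγ := by
    have := key h hβ.1 hγ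
    rw [anti_comm h hβ, ← two_smul ℝ, pf_smul] at this
    linarith
  trace K := by
    let A : Set (Mat × ℝ × Mat) := ({A | ∀ i j, |A i j| ≤ K} ×ˢ {1, -1} ×ˢ {A | ∀ i j, |A i j| ≤ 1}) ∩
      {x | x.1 * x.1 = -1 ∧ 0 ≤ x.2.1 * pf (om x.1) (om x.1) ∧ IsPos x.1 x.2.2 ∧
        ∑ i, ∑ j, |x.2.2 i j| = 1}
    have c1 : Continuous fun x : Mat × ℝ × Mat => x.1 := continuous_fst
    have c2 : Continuous fun x : Mat × ℝ × Mat => x.2.1 := continuous_snd.fst
    have c3 : Continuous fun x : Mat × ℝ × Mat => x.2.2 := continuous_snd.snd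
    have c4 : Continuous fun x : Mat × ℝ × Mat => om x.1 := c1.matrix_transpose.sub c1
    have hA : IsCompact A := by
      refine ((box K).prod ((toFinite _).isCompact.prod (box 1))).inter_right ?_
      refine (isClosed_eq (c1.matrix_mul c1) continuous_const).inter
        ((isClosed_le continuous_const (c2.mul (cont_pf c4 c4))).inter (IsClosed.inter
          (((isClosed_eq c3.matrix_transpose c3.neg).inter
            (isClosed_eq ((c1.matrix_transpose.matrix_mul c3).matrix_mul c1) c3)).inter ?_)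
          (isClosed_eq (continuous_finsetSum _ fun i _ => continuous_finsetSum _ fun j _ =>
            (c3.matrix_elem i j).abs) continuous_const)))
      have : {x : Mat × ℝ × Mat | ∀ Z : V, 0 ≤ Z ⬝ᵥ (x.2.2 *ᵥ (x.1 *ᵥ Z))} =
          ⋂ Z : V, {x | 0 ≤ Z ⬝ᵥ (x.2.2 *ᵥ (x.1 *ᵥ Z))} := by ext; simp
      show IsClosed {x : Mat × ℝ × Mat | ∀ Z : V, 0 ≤ Z ⬝ᵥ (x.2.2 *ᵥ (x.1 *ᵥ Z))}
      rw [this]
      refine isClosed_iInter fun Z => isClosed_le continuous_const ?_
      exact continuous_const.dotProduct (c3.matrix_mulVec (c1.matrix_mulVec continuous_const))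
    have hpos : ∀ x ∈ A, 0 < x.2.1 * pf x.2.2 (om x.1) := by
      rintro ⟨J, o, β⟩ ⟨⟨-, ho, -⟩, h1, h2, h3, h4⟩
      have o0 : o ≠ 0 := by rcases ho with rfl | rfl <;> norm_num
      have h5 : 0 < o * pf (om J) (om J) := lt_of_le_of_ne h2 (mul_ne_zero o0 (H.ne J h1)).symm
      refine lt_of_le_of_ne (H.pos_pos J o h1 h5 β _ h3 (om_pos h1)) (mul_ne_zero o0 fun e => ?_).symm
      have := H.strict J h1 β h3 e
      subst this
      simp at h4
    obtain ⟨m, hm, hm'⟩ : ∃ m, 0 < m ∧ ∀ x ∈ A, m ≤ x.2.1 * pf x.2.2 (om x.1) := by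
      rcases A.eq_empty_or_nonempty with e | e
      · exact ⟨1, one_pos, by simp [e]⟩
      · obtain ⟨x, hx, hx'⟩ := hA.exists_isMinOn e (c2.mul (cont_pf c3 c4)).continuousOn
        exact ⟨_, hpos x hx, fun y hy => hx' hy⟩
    refine ⟨m⁻¹, inv_pos.2 hm, fun J o h1 ho h2 hK β hβ i j => ?_⟩
    have le : ∀ (b : Mat) (i j), |b i j| ≤ ∑ i, ∑ j, |b i j| := fun b i j =>
      (Finset.single_le_sum (f := fun j => |b i j|) (fun _ _ => abs_nonneg _)
        (Finset.mem_univ j)).trans (Finset.single_le_sum (f := fun i => ∑ j, |b i j|)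
          (fun _ _ => Finset.sum_nonneg fun _ _ => abs_nonneg _) (Finset.mem_univ i))
    obtain ⟨s, hs⟩ : ∃ s, s = ∑ i, ∑ j, |β i j| := ⟨_, rfl⟩
    have l1 : |β i j| ≤ s := hs ▸ le β i j
    rcases ((abs_nonneg _).trans l1).eq_or_lt with e | e
    · exact l1.trans (e ▸ mul_nonneg (inv_pos.2 hm).le
        (H.pos_pos J o h1 h2 β _ hβ (om_pos h1)))
    · have h4 : ∑ i, ∑ j, |(s⁻¹ • β) i j| = 1 := by
        simp only [Matrix.smul_apply, smul_eq_mul, abs_mul, abs_of_pos (inv_pos.2 e),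
          ← Finset.mul_sum, ← hs]
        exact inv_mul_cancel₀ e.ne'
      have := hm' (J, o, s⁻¹ • β) ⟨⟨hK, ho, fun i j => h4 ▸ le _ i j⟩, h1, h2.le,
        pos_smul hβ (inv_pos.2 e).le, h4⟩
      simp only [pf_smul] at this
      refine l1.trans ?_
      rw [le_inv_mul_iff₀ hm]
      have e' := e.ne'
      calc m * s ≤ o * (s⁻¹ * pf β (om J)) * s := mul_le_mul_of_nonneg_right this e.le
        _ = o * pf β (om J) := by field_simp

end Pool.Agent.MP_13e7a1_an.H59
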